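import Pool.Agent.H.MP_d64a6e_ag.Bundle
import Pool.Agent.H.MP_d64a6e_ag.Genus

set_option autoImplicit false

namespace Pool.Agent.Results.MP_d64a6e_ag.SmoothNonElliptic

open Pool.Agent.H.MP_d64a6e_ag

/-- There is a smooth quasi-diagonal of genus at least two: there are an elliptic curve `E` over
`ℂ` (with function field `E.toAffine.FunctionField`), a nonzero effective divisor `D` on `E`, an
integer `n ≥ 2`, a smooth projective curve `S` (with function field `K`) of genus at least `2` and
a closed immersion `(f 1, …, f n) : S → E ^ n` such that for all `i`, `j` the line bundle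
`f i ^* O(D) ⊗ (f j ^* O(D))⁻¹` is torsion in `Pic S`. -/
theorem result : ∃ (E : WeierstrassCurve ℂ) (_ : E.IsElliptic)
    (D : EffectiveDivisor E.toAffine.FunctionField) (n : ℕ) (_ : 2 ≤ n)
    (K : Type) (_ : Field K) (_ : Algebra ℂ K) (_ : CurveField K)
    (f : Fin n → (E.toAffine.FunctionField →ₐ[ℂ] K)),
    IsClosedImmersion f ∧
    (∀ i j, IsTorsion (pullback (f i) D.gen / pullback (f j) D.gen)) ∧
    2 ≤ genus K :=
  ⟨E₂, inferInstance, divE, 2, le_refl 2, FS, inferInstance, inferInstance, inferInstance, fS,
    fS_isClosedImmersion, torsion_S, two_le_genus⟩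

end Pool.Agent.Results.MP_d64a6e_ag.SmoothNonElliptic
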